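import Pool.Agent.H612.Collect

/-!
# Affine polynomial projection: the decision problems
-/

namespace Pool.Agent.W954.Aff

open Pool.Agent.NPC Pool.Agent.NPC.H612

/-- **Affine polynomial projection.** An instance `(n, f, g)` consists of a number `n` of variables
and two polynomials `f`, `g` with integer coefficients in `n` variables, each given by the list of
its terms (`PolyData`: pairs of a nonzero coefficient and an exponent vector of length `n`, the
exponent vectors being pairwise distinct). The question is whether there are a real matrix `A` and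
a real vector `b` such that `f(x) = g(A x + b)` for all `x`. -/
def AffineProjection (q : ℕ × PolyData × PolyData) : Prop :=
  q.2.1.Valid q.1 ∧ q.2.2.Valid q.1 ∧
    ∃ (A : Matrix (Fin q.1) (Fin q.1) ℝ) (b : Fin q.1 → ℝ), ∀ x : Fin q.1 → ℝ,
      MvPolynomial.aeval x (q.2.1.toPoly q.1) =
        MvPolynomial.aeval (A.mulVec x + b) (q.2.2.toPoly q.1)

/-- **Affine projection to a quartic form.** An instance `(n, g)` consists of a number `n ≥ 2` of
variables and a form (homogeneous polynomial) `g` of degree four with integer coefficients in `n`
variables, given by the list of its terms. The question is whether there are a real matrix `A` and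
a real vector `b` such that `x₀ ^ 2 x₁ ^ 2 = g(A x + b)` for all `x`. -/
def QuarticFormProjection (q : ℕ × PolyData) : Prop :=
  ∃ h : 2 ≤ q.1, q.2.Valid q.1 ∧ (q.2.toPoly q.1).IsHomogeneous 4 ∧
    ∃ (A : Matrix (Fin q.1) (Fin q.1) ℝ) (b : Fin q.1 → ℝ), ∀ x : Fin q.1 → ℝ,
      x ⟨0, by omega⟩ ^ 2 * x ⟨1, by omega⟩ ^ 2 =
        MvPolynomial.aeval (A.mulVec x + b) (q.2.toPoly q.1)

end Pool.Agent.W954.Aff
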