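import Pool.Agent.W954.Aff.Defs
import Pool.Agent.H612.CollectPoly
import Pool.Agent.H78R3.TSV.Time

/-!
# Affine polynomial projection: the reduction
-/

namespace Pool.Agent.W954.Aff

open Finset Pool.Agent.NPC Pool.Agent.NPC.H612 Pool.Agent.H78R3.TSV Pool.Agent.NPC.H78TSV

/-- The product of two terms, with multiplicity. -/
def prodT (s t : QT) : List (Bool × List ℕ) :=
  ((List.range 256).filter (fun r => decide (r < 4 * (s.1.natAbs * t.1.natAbs)))).map
    (fun _ => (xor (decide (s.1 < 0)) (decide (t.1 < 0)), [s.2.1, s.2.2, t.2.1, t.2.2]))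

/-- The square of a quadratic form. -/
def rawSq (g : QC) : List (Bool × List ℕ) :=
  [g.1, g.2.1, g.2.2].flatMap (fun s => [g.1, g.2.1, g.2.2].flatMap (fun t => prodT s t))

/-- The quartic form. -/
def rawG (n : ℕ) (G : List QC) : List (Bool × List ℕ) :=
  (List.range n).map (fun i => (false, [n, n, i, i])) ++ G.flatMap rawSq

/-- The quartic form `x₀² x₁²`. -/
def rawF : List (Bool × List ℕ) := [(false, [0, 0, 1, 1])]

theorem rawEval_nil (y : ℕ → ℝ) : rawEval y [] = 0 := by simp [rawEval]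

theorem rawEval_append (y : ℕ → ℝ) (l l' : List (Bool × List ℕ)) :
    rawEval y (l ++ l') = rawEval y l + rawEval y l' := by simp [rawEval]

theorem rawEval_flatMap {α : Type} (y : ℕ → ℝ) (l : List α) (F : α → List (Bool × List ℕ)) :
    rawEval y (l.flatMap F) = (l.map (fun a => rawEval y (F a))).sum := by
  induction l with
  | nil => simp [rawEval]
  | cons a l ih => rw [List.flatMap_cons, rawEval_append, ih, List.map_cons, List.sum_cons]

theorem sgn_xor (a b : ℤ) : ((sgn (xor (decide (a < 0)) (decide (b < 0))) : ℤ) : ℝ) *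
    (a.natAbs * b.natAbs : ℕ) = a * b := by
  have key : ∀ z : ℤ, ((sgn (decide (z < 0)) : ℤ) : ℝ) * (z.natAbs : ℝ) = z := by
    intro z
    have h1 : (z.natAbs : ℝ) = |(z : ℝ)| := by
      rw [← Int.cast_abs, ← Int.natCast_natAbs]; simp
    rw [h1]
    by_cases hz : z < 0
    · have : (z : ℝ) < 0 := by exact_mod_cast hz
      simp [sgn, hz, abs_of_neg this]
    · have : (0 : ℝ) ≤ z := by exact_mod_cast not_lt.1 hz
      simp [sgn, hz, abs_of_nonneg this]
  have h2 : ∀ u v : Bool, sgn (xor u v) = sgn u * sgn v := by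
    intro u v; cases u <;> cases v <;> simp [sgn]
  rw [h2]
  push_cast
  calc _ = (((sgn (decide (a < 0)) : ℤ) : ℝ) * (a.natAbs : ℝ)) *
      (((sgn (decide (b < 0)) : ℤ) : ℝ) * (b.natAbs : ℝ)) := by ring
    _ = _ := by rw [key, key]

theorem length_filter_range (k m : ℕ) (h : m ≤ k) :
    ((List.range k).filter (fun r => decide (r < m))).length = m := by
  induction k generalizing m with
  | zero => simp; omega
  | succ k ih =>
    rw [List.range_succ, List.filter_append]
    by_cases hm : m ≤ k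
    · simp [ih m hm, hm]
    · have hm' : m = k + 1 := by omega
      subst hm'
      have : (List.range k).filter (fun r => decide (r < k + 1)) = List.range k := by
        rw [List.filter_eq_self]
        intro a ha
        have := List.mem_range.1 ha
        simp; omega
      rw [this]
      simp

theorem sum_map_const' {α : Type} (l : List α) (c : ℝ) : (l.map (fun _ => c)).sum = l.length * c := by
  induction l with
  | nil => simp
  | cons a l ih => rw [List.map_cons, List.sum_cons, ih, List.length_cons]; push_cast; ring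

theorem rawEval_prodT (y : ℕ → ℝ) {s t : QT} (hs : s.1.natAbs ≤ 8) (ht : t.1.natAbs ≤ 8) :
    rawEval y (prodT s t) = tev y y s * tev y y t := by
  have hst : 4 * (s.1.natAbs * t.1.natAbs) ≤ 256 := by
    have := Nat.mul_le_mul hs ht
    omega
  unfold prodT rawEval
  rw [List.map_map]
  simp only [Function.comp_def]
  rw [sum_map_const', length_filter_range _ _ hst]
  simp only [List.map_cons, List.map_nil, List.prod_cons, List.prod_nil]
  have h := sgn_xor s.1 t.1
  push_cast at h ⊢
  unfold tev bev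
  linear_combination (4 * y s.2.1 * y s.2.2 * y t.2.1 * y t.2.2) * h

theorem rawEval_rawSq (y : ℕ → ℝ) {n : ℕ} {g : QC} (hg : GOk n g) :
    rawEval y (rawSq g) = gev y y g ^ 2 := by
  obtain ⟨⟨a1, -⟩, ⟨b1, -⟩, ⟨c1, -⟩⟩ := hg
  unfold rawSq gev
  rw [rawEval_flatMap]
  simp only [List.map_cons, List.map_nil, List.sum_cons, List.sum_nil, rawEval_flatMap,
    rawEval_prodT y a1 a1, rawEval_prodT y a1 b1, rawEval_prodT y a1 c1, rawEval_prodT y b1 a1,
    rawEval_prodT y b1 b1, rawEval_prodT y b1 c1, rawEval_prodT y c1 a1, rawEval_prodT y c1 b1,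
    rawEval_prodT y c1 c1]
  ring

theorem sum_map_range (n : ℕ) (f : ℕ → ℝ) : ((List.range n).map f).sum = ∑ i ∈ range n, f i := by
  induction n with
  | zero => simp
  | succ n ih => rw [List.range_succ, List.map_append, List.sum_append, ih, Finset.sum_range_succ]; simp

theorem rawEval_rawG (y : ℕ → ℝ) {n : ℕ} {G : List QC} (hG : ∀ g ∈ G, GOk n g) :
    rawEval y (rawG n G) = y n ^ 2 * ∑ i ∈ range n, y i ^ 2 + (G.map (fun g => gev y y g ^ 2)).sum := by
  unfold rawG
  rw [rawEval_append, rawEval_flatMap]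
  congr 1
  · unfold rawEval
    rw [List.map_map, Finset.mul_sum, ← sum_map_range]
    congr 1
    apply List.map_congr_left
    intro i _
    simp only [Function.comp, List.map_cons, List.map_nil, List.prod_cons, List.prod_nil, sgn]
    push_cast
    simp
    ring
  · congr 1
    apply List.map_congr_left
    intro g hg
    exact rawEval_rawSq y (hG g hg)

theorem rawG_lt {n : ℕ} {G : List QC} (hG : ∀ g ∈ G, GOk n g) :
    ∀ p ∈ rawG n G, (∀ i ∈ p.2, i < n + 1) ∧ p.2.length = 4 := by
  intro p hp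
  unfold rawG at hp
  rw [List.mem_append, List.mem_map, List.mem_flatMap] at hp
  rcases hp with ⟨i, hi, rfl⟩ | ⟨g, hg, hp⟩
  · have := List.mem_range.1 hi
    refine ⟨fun j hj => ?_, rfl⟩
    simp only [List.mem_cons, List.not_mem_nil, or_false] at hj
    omega
  · have h := hG g hg
    unfold rawSq at hp
    rw [List.mem_flatMap] at hp
    obtain ⟨s, hs, hp⟩ := hp
    rw [List.mem_flatMap] at hp
    obtain ⟨t, ht, hp⟩ := hp
    have key : ∀ u ∈ [g.1, g.2.1, g.2.2], TOk n u := by
      intro u hu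
      simp only [List.mem_cons, List.not_mem_nil, or_false] at hu
      rcases hu with rfl | rfl | rfl
      · exact h.1
      · exact h.2.1
      · exact h.2.2
    obtain ⟨-, s1, s2⟩ := key s hs
    obtain ⟨-, t1, t2⟩ := key t ht
    unfold prodT at hp
    rw [List.mem_map] at hp
    obtain ⟨r, -, rfl⟩ := hp
    refine ⟨fun j hj => ?_, rfl⟩
    simp only [List.mem_cons, List.not_mem_nil, or_false] at hj
    omega

/-- The quartic form of the reduction. -/
def formG (T : List ER.Con) : PolyData := collect (hn T + 1) (rawG (hn T) (hsys T))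

/-- The quartic form `x₀² x₁²`. -/
def formF (T : List ER.Con) : PolyData := collect (hn T + 1) rawF

theorem two_le (T : List ER.Con) : 2 ≤ hn T + 1 := by unfold hn; omega

theorem lt_of_rawF {n : ℕ} (hn : 2 ≤ n) : ∀ p ∈ rawF, (∀ i ∈ p.2, i < n) ∧ p.2.length = 4 := by
  intro p hp
  unfold rawF at hp
  rw [List.mem_singleton] at hp
  subst hp
  refine ⟨fun j hj => ?_, rfl⟩
  simp only [List.mem_cons, List.not_mem_nil, or_false] at hj
  omega

theorem aeval_formF (T : List ER.Con) (x : Fin (hn T + 1) → ℝ) :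
    MvPolynomial.aeval x ((formF T).toPoly (hn T + 1)) = xt x 0 ^ 2 * xt x 1 ^ 2 := by
  unfold formF
  rw [aeval_collect rawF (fun p hp => (lt_of_rawF (two_le T) p hp).1)]
  simp only [rawEval, rawF, List.map_cons, List.map_nil, List.prod_cons, List.prod_nil, sgn,
    List.sum_cons, List.sum_nil]
  simp
  ring

theorem aeval_formG (T : List ER.Con) (x : Fin (hn T + 1) → ℝ) :
    MvPolynomial.aeval x ((formG T).toPoly (hn T + 1)) =
      xt x (hn T) ^ 2 * ∑ i ∈ range (hn T), xt x i ^ 2 +
        ((hsys T).map (fun g => gev (xt x) (xt x) g ^ 2)).sum := by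
  unfold formG
  rw [aeval_collect _ (fun p hp => (rawG_lt (hsys_ok T) p hp).1), rawEval_rawG _ (hsys_ok T)]

/-- A polynomial given by terms of degree `d` is homogeneous of degree `d`. -/
theorem isHomogeneous_of {n d : ℕ} (l : PolyData) (hl : ∀ t ∈ l, t.2.length = n ∧ t.2.sum = d) :
    (l.toPoly n).IsHomogeneous d := by
  unfold PolyData.toPoly
  induction l with
  | nil => simpa using MvPolynomial.isHomogeneous_zero _ _ _
  | cons t l ih =>
    rw [List.map_cons, List.sum_cons]
    refine MvPolynomial.IsHomogeneous.add ?_ (ih (fun u hu => hl u (List.mem_cons_of_mem _ hu)))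
    obtain ⟨h1, h2⟩ := hl t List.mem_cons_self
    refine MvPolynomial.isHomogeneous_monomial _ ?_
    rw [Finsupp.degree_eq_sum]
    simp only [Finsupp.coe_equivFunOnFinite_symm]
    rw [← h2, ← h1]
    rw [← List.sum_ofFn]
    congr 1
    apply List.ext_getElem
    · simp
    · intro i h3 h4
      simp [List.getD_eq_getElem _ _ h4]

theorem formG_homogeneous (T : List ER.Con) :
    ((formG T).toPoly (hn T + 1)).IsHomogeneous 4 := by
  refine isHomogeneous_of _ (fun t ht => ⟨((collect_valid _ _).1 t ht).2, ?_⟩)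
  exact collect_deg _ (fun p hp => (rawG_lt (hsys_ok T) p hp).1)
    (fun p hp => (rawG_lt (hsys_ok T) p hp).2) t ht

theorem formF_homogeneous (T : List ER.Con) :
    ((formF T).toPoly (hn T + 1)).IsHomogeneous 4 := by
  refine isHomogeneous_of _ (fun t ht => ⟨((collect_valid _ _).1 t ht).2, ?_⟩)
  exact collect_deg _ (fun p hp => (lt_of_rawF (two_le T) p hp).1)
    (fun p hp => (lt_of_rawF (two_le T) p hp).2) t ht

/-- For a form `g` of degree `d`, a form of degree `d` is an affine projection of `g` only if it is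
a linear projection, with the same matrix. -/
theorem linear_of_affine {n d : ℕ} {f g : MvPolynomial (Fin n) ℤ} (hf : f.IsHomogeneous d)
    (hg : g.IsHomogeneous d) {A : Matrix (Fin n) (Fin n) ℝ} {b : Fin n → ℝ}
    (h : ∀ x : Fin n → ℝ, MvPolynomial.aeval x f = MvPolynomial.aeval (A.mulVec x + b) g)
    (x : Fin n → ℝ) : MvPolynomial.aeval x f = MvPolynomial.aeval (A.mulVec x) g := by
  have hs : ∀ (p : MvPolynomial (Fin n) ℤ), p.IsHomogeneous d → ∀ (s : ℝ) (y : Fin n → ℝ),
      MvPolynomial.aeval (s • y) p = s ^ d * MvPolynomial.aeval y p := by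
    intro p hp s y
    rw [MvPolynomial.aeval_def, MvPolynomial.aeval_def, MvPolynomial.eval₂_eq', MvPolynomial.eval₂_eq',
      Finset.mul_sum]
    refine Finset.sum_congr rfl (fun m hm => ?_)
    have h1 : ∑ i, m i = d := by
      have := hp (MvPolynomial.mem_support_iff.1 hm)
      rw [← this, Finsupp.weight_apply, Finsupp.sum_fintype] <;> simp
    simp only [Pi.smul_apply, smul_eq_mul, mul_pow, Finset.prod_mul_distrib]
    rw [Finset.prod_pow_eq_pow_sum, h1]
    ring
  have h1 : ∀ s : ℝ, s ≠ 0 →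
      MvPolynomial.aeval x f = MvPolynomial.aeval (A.mulVec x + s • b) g := by
    intro s hs0
    have h2 := h (s⁻¹ • x)
    rw [hs f hf] at h2
    have h3 : A.mulVec (s⁻¹ • x) + b = s⁻¹ • (A.mulVec x + s • b) := by
      rw [Matrix.mulVec_smul, smul_add, smul_smul, inv_mul_cancel₀ hs0, one_smul]
    rw [h3, hs g hg] at h2
    have h4 : (s⁻¹ : ℝ) ^ d ≠ 0 := pow_ne_zero _ (inv_ne_zero hs0)
    exact mul_left_cancel₀ h4 h2
  have hc : Continuous (fun s : ℝ => MvPolynomial.aeval (A.mulVec x + s • b) g) := by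
    simp only [MvPolynomial.aeval_def, MvPolynomial.eval₂_eq']
    refine continuous_finsetSum _ (fun m _ => continuous_const.mul ?_)
    refine continuous_finsetProd _ (fun i _ => Continuous.pow ?_ _)
    simp only [Pi.add_apply, Pi.smul_apply, smul_eq_mul]
    fun_prop
  have ht := (hc.tendsto 0).mono_left (nhdsWithin_le_nhds (s := {0}ᶜ))
  have ht' : Filter.Tendsto (fun s : ℝ => MvPolynomial.aeval (A.mulVec x + s • b) g)
      (nhdsWithin 0 {0}ᶜ) (nhds (MvPolynomial.aeval x f)) := by
    refine tendsto_const_nhds.congr' ?_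
    filter_upwards [self_mem_nhdsWithin] with s hs'
    exact h1 s hs'
  have := tendsto_nhds_unique ht' ht
  rw [this]
  simp

theorem sum_sq_zero {G : List QC} {x : ℕ → ℝ} (h : (G.map (fun g => gev x x g ^ 2)).sum = 0) :
    ∀ g ∈ G, gev x x g = 0 := by
  intro g hg
  have h1 : ∀ a ∈ G.map (fun g => gev x x g ^ 2), 0 ≤ a := by
    intro a ha
    rw [List.mem_map] at ha
    obtain ⟨g, -, rfl⟩ := ha
    positivity
  have := sum_sq_nonneg_list _ h1 h.le _ (List.mem_map_of_mem (f := fun g => gev x x g ^ 2) hg)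
  simpa using this

theorem sum_sq_ge (G : List QC) (x : ℕ → ℝ) : 0 ≤ (G.map (fun g => gev x x g ^ 2)).sum :=
  List.sum_nonneg (fun a ha => by
    rw [List.mem_map] at ha
    obtain ⟨g, -, rfl⟩ := ha
    positivity)

theorem gev_congr {n : ℕ} {x y : ℕ → ℝ} (h : ∀ i < n, x i = y i) {g : QC} (hg : GOk n g) :
    gev x x g = gev y y g := by
  obtain ⟨⟨-, a2, a3⟩, ⟨-, b2, b3⟩, ⟨-, c2, c3⟩⟩ := hg
  unfold gev tev bev
  rw [h _ a2, h _ a3, h _ b2, h _ b3, h _ c2, h _ c3]

theorem of_homSat (T : List ER.Con) (h : HomSat (hn T) (hsys T)) :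
    ∃ (A : Matrix (Fin (hn T + 1)) (Fin (hn T + 1)) ℝ) (b : Fin (hn T + 1) → ℝ),
      ∀ x : Fin (hn T + 1) → ℝ, xt x 0 ^ 2 * xt x 1 ^ 2 =
        MvPolynomial.aeval (A.mulVec x + b) ((formG T).toPoly (hn T + 1)) := by
  obtain ⟨a, ha, hg⟩ := h
  have h2 := two_le T
  refine ⟨fun i j => if (i : ℕ) = hn T then (if (j : ℕ) = 1 then 1 else 0)
    else (if (j : ℕ) = 0 then a i else 0), 0, fun x => ?_⟩
  rw [aeval_formG]
  have e0 : ∀ (k : ℕ) (hk : k < hn T + 1) (c : ℝ),
      ∑ j : Fin (hn T + 1), (if (j : ℕ) = k then c else 0) * x j = c * xt x k := by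
    intro k hk c
    rw [Finset.sum_eq_single (⟨k, hk⟩ : Fin (hn T + 1))]
    · simp [xt, hk]
    · intro j _ hj
      rw [if_neg (fun h => hj (Fin.ext h)), zero_mul]
    · intro h
      exact absurd (Finset.mem_univ _) h
  set M : Matrix (Fin (hn T + 1)) (Fin (hn T + 1)) ℝ :=
    fun i j => if (i : ℕ) = hn T then (if (j : ℕ) = 1 then 1 else 0)
      else (if (j : ℕ) = 0 then a i else 0) with hM
  have v1 : xt (M.mulVec x + 0) (hn T) = xt x 1 := by
    rw [add_zero]
    unfold xt
    rw [dif_pos (by omega), dif_pos (by omega)]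
    simp only [Matrix.mulVec, dotProduct, hM, if_true]
    rw [e0 1 (by omega) 1]
    simp [xt, show 1 < hn T + 1 by omega]
  have v2 : ∀ i < hn T, xt (M.mulVec x + 0) i = xt x 0 * a i := by
    intro i hi
    rw [add_zero]
    unfold xt
    rw [dif_pos (by omega), dif_pos (by omega)]
    simp only [Matrix.mulVec, dotProduct, hM]
    have : ∀ j : Fin (hn T + 1), (if i = hn T then (if (j : ℕ) = 1 then (1 : ℝ) else 0)
      else (if (j : ℕ) = 0 then a i else 0)) = if (j : ℕ) = 0 then a i else 0 := by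
      intro j
      rw [if_neg (by omega)]
    simp only [this]
    rw [e0 0 (by omega) (a i)]
    simp [xt, mul_comm]
  have v3 : ∑ i ∈ range (hn T), xt (M.mulVec x + 0) i ^ 2 = xt x 0 ^ 2 := by
    rw [Finset.sum_congr rfl (fun i hi => by rw [v2 i (Finset.mem_range.1 hi), mul_pow]),
      ← Finset.mul_sum, ha, mul_one]
  have v4 : ((hsys T).map (fun g => gev (xt (M.mulVec x + 0)) (xt (M.mulVec x + 0)) g ^ 2)).sum
      = 0 := by
    apply List.sum_eq_zero
    intro r hr
    rw [List.mem_map] at hr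
    obtain ⟨g, hg', rfl⟩ := hr
    rw [gev_congr (y := fun i => xt x 0 * a i) v2 (hsys_ok T g hg')]
    have : gev (fun i => xt x 0 * a i) (fun i => xt x 0 * a i) g = xt x 0 ^ 2 * gev a a g := by
      unfold gev tev bev
      ring
    rw [this, hg g hg']
    ring
  rw [v1, v3, v4]
  ring

theorem to_homSat (T : List ER.Con)
    (h : ∃ (A : Matrix (Fin (hn T + 1)) (Fin (hn T + 1)) ℝ) (b : Fin (hn T + 1) → ℝ),
      ∀ x : Fin (hn T + 1) → ℝ, xt x 0 ^ 2 * xt x 1 ^ 2 =
        MvPolynomial.aeval (A.mulVec x + b) ((formG T).toPoly (hn T + 1))) :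
    HomSat (hn T) (hsys T) := by
  obtain ⟨A, b, h⟩ := h
  have h2 := two_le T
  have hlin : ∀ x : Fin (hn T + 1) → ℝ, xt x 0 ^ 2 * xt x 1 ^ 2 =
      MvPolynomial.aeval (A.mulVec x) ((formG T).toPoly (hn T + 1)) := by
    intro x
    rw [← aeval_formF]
    refine linear_of_affine (formF_homogeneous T) (formG_homogeneous T) (b := b) (fun x => ?_) x
    rw [aeval_formF]
    exact h x
  simp only [aeval_formG] at hlin
  -- a vector `x` with `x₀ x₁ = 0` gives a solution, unless its image is zero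
  have key : ∀ x : Fin (hn T + 1) → ℝ, xt x 0 ^ 2 * xt x 1 ^ 2 = 0 →
      HomSat (hn T) (hsys T) ∨ ∀ i < hn T, xt (A.mulVec x) i = 0 := by
    intro x hx
    by_cases h0 : ∑ i ∈ range (hn T), xt (A.mulVec x) i ^ 2 = 0
    · right
      intro i hi
      have := (Finset.sum_eq_zero_iff_of_nonneg (fun i _ => by positivity)).1 h0 i
        (Finset.mem_range.2 hi)
      simpa using this
    · left
      have h3 := hlin x
      rw [hx] at h3
      have h4 := sum_sq_ge (hsys T) (xt (A.mulVec x))
      have h5 : 0 ≤ ∑ i ∈ range (hn T), xt (A.mulVec x) i ^ 2 :=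
        Finset.sum_nonneg (fun i _ => by positivity)
      have h6 : 0 ≤ xt (A.mulVec x) (hn T) ^ 2 * ∑ i ∈ range (hn T), xt (A.mulVec x) i ^ 2 := by
        positivity
      exact homSat_of _ (lt_of_le_of_ne h5 (Ne.symm h0)) (sum_sq_zero (by linarith))
  let e0 : Fin (hn T + 1) → ℝ := fun j => if (j : ℕ) = 0 then 1 else 0
  let e1 : Fin (hn T + 1) → ℝ := fun j => if (j : ℕ) = 1 then 1 else 0
  rcases key e0 (by simp [xt, e0]) with h3 | h3
  · exact h3
  rcases key e1 (by simp [xt, e1]) with h4 | h4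
  · exact h4
  exfalso
  have h5 := hlin (e0 + e1)
  have h6 : ∀ i < hn T, xt (A.mulVec (e0 + e1)) i = 0 := by
    intro i hi
    have a1 := h3 i hi
    have a2 := h4 i hi
    rw [Matrix.mulVec_add]
    unfold xt at a1 a2 ⊢
    rw [dif_pos (by omega)] at a1 a2 ⊢
    rw [Pi.add_apply, a1, a2, add_zero]
  have h7 : ∑ i ∈ range (hn T), xt (A.mulVec (e0 + e1)) i ^ 2 = 0 :=
    Finset.sum_eq_zero (fun i hi => by rw [h6 i (Finset.mem_range.1 hi)]; ring)
  have h8 : ((hsys T).map (fun g => gev (xt (A.mulVec (e0 + e1))) (xt (A.mulVec (e0 + e1))) g ^ 2)).sum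
      = 0 := by
    apply List.sum_eq_zero
    intro r hr
    rw [List.mem_map] at hr
    obtain ⟨g, hg', rfl⟩ := hr
    rw [gev_congr (y := fun _ => 0) h6 (hsys_ok T g hg')]
    simp [gev, tev, bev]
  rw [h7, h8] at h5
  have h9 : xt (e0 + e1) 0 = 1 := by simp [xt, e0, e1]
  have h10 : xt (e0 + e1) 1 = 1 := by
    simp only [xt, dif_pos (show 1 < hn T + 1 by omega), e0, e1, Pi.add_apply]
    norm_num
  rw [h9, h10] at h5
  norm_num at h5

theorem quartic_iff (T : List ER.Con) :
    QuarticFormProjection (hn T + 1, formG T) ↔ HomSat (hn T) (hsys T) := by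
  have h2 := two_le T
  have e : ∀ x : Fin (hn T + 1) → ℝ, xt x 0 ^ 2 * xt x 1 ^ 2 =
      x ⟨0, by omega⟩ ^ 2 * x ⟨1, by omega⟩ ^ 2 := by
    intro x
    simp [xt, show 1 < hn T + 1 by omega]
  unfold QuarticFormProjection
  constructor
  · rintro ⟨_, _, _, A, b, h⟩
    refine to_homSat _ ⟨A, b, fun x => ?_⟩
    rw [e]
    exact h x
  · intro h
    obtain ⟨A, b, h⟩ := of_homSat _ h
    refine ⟨two_le _, collect_valid _ _, formG_homogeneous _, A, b, fun x => ?_⟩
    have := h x
    rw [e] at this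
    exact this

theorem affine_iff (T : List ER.Con) :
    AffineProjection (hn T + 1, formF T, formG T) ↔ HomSat (hn T) (hsys T) := by
  unfold AffineProjection
  constructor
  · rintro ⟨-, -, A, b, h⟩
    refine to_homSat _ ⟨A, b, fun x => ?_⟩
    rw [← aeval_formF]
    exact h x
  · intro h
    obtain ⟨A, b, h⟩ := of_homSat _ h
    refine ⟨collect_valid _ _, collect_valid _ _, A, b, fun x => ?_⟩
    have := h x
    rw [← aeval_formF] at this
    exact this

/-- The instances of the reductions. -/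
def instG (S : List ER.Con) : ℕ × PolyData := (hn (ER.bsys S) + 1, formG (ER.bsys S))

/-- The instances of the reductions. -/
def instFG (S : List ER.Con) : ℕ × PolyData × PolyData :=
  (hn (ER.bsys S) + 1, formF (ER.bsys S), formG (ER.bsys S))

theorem sat_iff_quartic (S : List ER.Con) : ER.Sat S ↔ QuarticFormProjection (instG S) := by
  rw [← homSat_iff]
  exact (quartic_iff _).symm

theorem sat_iff_affine (S : List ER.Con) : ER.Sat S ↔ AffineProjection (instFG S) := by
  rw [← homSat_iff]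
  exact (affine_iff _).symm

section time

variable {α : Type} [TEnc α]

theorem poly_prodT {s t : α → QT} (hs : NPC.Poly s) (ht : NPC.Poly t) :
    NPC.Poly (fun a => prodT (s a) (t a)) := by
  have h1 : NPC.Poly (fun a => 4 * ((s a).1.natAbs * (t a).1.natAbs)) :=
    NPC.Poly.mul (NPC.Poly.const 4) (NPC.Poly.mul (ER.poly_natAbs (NPC.Poly.fst hs))
      (ER.poly_natAbs (NPC.Poly.fst ht)))
  refine NPC.Poly.map (F := fun a _ => (xor (decide ((s a).1 < 0)) (decide ((t a).1 < 0)),
    [(s a).2.1, (s a).2.2, (t a).2.1, (t a).2.2])) (NPC.Poly.filter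
    (p := fun a r => decide (r < 4 * ((s a).1.natAbs * (t a).1.natAbs)))
    (NPC.Poly.const (List.range 256)) ?_) ?_
  · exact NPC.Poly.decide_lt (NPC.Poly.snd NPC.Poly.id) (h1.comp (NPC.Poly.fst NPC.Poly.id))
  · have hs' := hs.comp (NPC.Poly.fst (β := α) (γ := ℕ) NPC.Poly.id)
    have ht' := ht.comp (NPC.Poly.fst (β := α) (γ := ℕ) NPC.Poly.id)
    exact NPC.Poly.pair (NPC.Poly.xor (ER.poly_isNeg (NPC.Poly.fst hs'))
      (ER.poly_isNeg (NPC.Poly.fst ht')))
      (NPC.Poly.cons (NPC.Poly.fst (NPC.Poly.snd hs')) (NPC.Poly.cons (NPC.Poly.snd (NPC.Poly.snd hs'))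
      (NPC.Poly.cons (NPC.Poly.fst (NPC.Poly.snd ht')) (NPC.Poly.cons (NPC.Poly.snd (NPC.Poly.snd ht'))
      (NPC.Poly.const [])))))

theorem poly_rawSq {g : α → QC} (hg : NPC.Poly g) : NPC.Poly (fun a => rawSq (g a)) := by
  have g1 := NPC.Poly.fst hg
  have g2 := NPC.Poly.fst (NPC.Poly.snd hg)
  have g3 := NPC.Poly.snd (NPC.Poly.snd hg)
  have hl : NPC.Poly (fun a => [(g a).1, (g a).2.1, (g a).2.2]) :=
    NPC.Poly.cons g1 (NPC.Poly.cons g2 (NPC.Poly.cons g3 (NPC.Poly.const [])))
  refine NPC.Poly.flatMap (F := fun a s => [(g a).1, (g a).2.1, (g a).2.2].flatMap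
    (fun t => prodT s t)) hl ?_
  refine NPC.Poly.flatMap (F := fun (q : α × QT) t => prodT q.2 t)
    (hl.comp (NPC.Poly.fst NPC.Poly.id)) ?_
  exact poly_prodT (NPC.Poly.snd (NPC.Poly.fst NPC.Poly.id)) (NPC.Poly.snd NPC.Poly.id)

theorem poly_rawG {n : α → ℕ} {G : α → List QC} (hn : UPoly n) (hG : NPC.Poly G) :
    NPC.Poly (fun a => rawG (n a) (G a)) := by
  refine NPC.Poly.append ?_ ?_
  · refine NPC.Poly.map (F := fun a i => (false, [n a, n a, i, i])) hn.range ?_
    have hn' := hn.toPoly.comp (NPC.Poly.fst (β := α) (γ := ℕ) NPC.Poly.id)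
    exact NPC.Poly.pair (NPC.Poly.const false) (NPC.Poly.cons hn' (NPC.Poly.cons hn'
      (NPC.Poly.cons (NPC.Poly.snd NPC.Poly.id) (NPC.Poly.cons (NPC.Poly.snd NPC.Poly.id)
      (NPC.Poly.const [])))))
  · exact NPC.Poly.flatMap (F := fun _ g => rawSq g) hG (poly_rawSq (NPC.Poly.snd NPC.Poly.id))

theorem poly_formG {T : α → List ER.Con} (hT : NPC.Poly T) : NPC.Poly (fun a => formG (T a)) :=
  poly_collect (UPoly.add (upoly_hn hT) (UPoly.const 1)) (poly_rawG (upoly_hn hT) (poly_hsys hT))

theorem poly_formF {T : α → List ER.Con} (hT : NPC.Poly T) : NPC.Poly (fun a => formF (T a)) :=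
  poly_collect (UPoly.add (upoly_hn hT) (UPoly.const 1)) (NPC.Poly.const rawF)

theorem poly_instG : NPC.Poly instG := by
  have h := ER.poly_bsys (NPC.Poly.id (α := List ER.Con))
  exact NPC.Poly.pair (UPoly.add (upoly_hn h) (UPoly.const 1)).toPoly (poly_formG h)

theorem poly_instFG : NPC.Poly instFG := by
  have h := ER.poly_bsys (NPC.Poly.id (α := List ER.Con))
  exact NPC.Poly.pair (UPoly.add (upoly_hn h) (UPoly.const 1)).toPoly
    (NPC.Poly.pair (poly_formF h) (poly_formG h))

end time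

theorem affineProjection_hard : ER.ERHard (lang AffineProjection) :=
  ER.ERHard.of_sys poly_instFG sat_iff_affine

theorem quarticFormProjection_hard : ER.ERHard (lang QuarticFormProjection) :=
  ER.ERHard.of_sys poly_instG sat_iff_quartic

end Pool.Agent.W954.Aff
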